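import Mathlib

set_option autoImplicit false

namespace Pool.Agent.Skel

open Finset

variable {E : Type*} [NormedAddCommGroup E] [InnerProductSpace ℝ E] [FiniteDimensional ℝ E]


/-- Dual vectors of an affinely independent family. -/
lemma exists_dual {ι : Type} [Fintype ι] [DecidableEq ι] (v : ι → E) (hv : AffineIndependent ℝ v)
    (i : ι) : ∃ r : E, ∀ j k, (inner ℝ (r) (v j - v k) : ℝ) = (if i = j then (1 : ℝ) else 0) -
      (if i = k then (1 : ℝ) else 0) := by
  have hli := (affineIndependent_iff_linearIndependent_vsub ℝ v i).1 hv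
  let b := Module.Basis.span hli
  obtain ⟨φ, hφ⟩ := LinearMap.exists_extend (b.constr ℝ (fun _ => (-1 : ℝ)))
  have h1 : ∀ j, j ≠ i → φ (v j - v i) = -1 := by
    intro j hj
    have h2 := congrArg (fun f => f (b ⟨j, hj⟩)) hφ
    simp only [LinearMap.comp_apply, Module.Basis.constr_basis] at h2
    have h3 : ((b ⟨j, hj⟩ : Submodule.span ℝ _) : E) = v j - v i := by
      exact Module.Basis.coe_span_apply hli ⟨j, hj⟩
    rw [← h3]
    exact h2
  have h1' : ∀ j, φ (v j - v i) = (if i = j then (1 : ℝ) else 0) - 1 := by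
    intro j
    by_cases hj : j = i
    · subst hj; simp
    · rw [h1 j hj, if_neg (fun h => hj h.symm)]; norm_num
  refine ⟨(InnerProductSpace.toDual ℝ E).symm (LinearMap.toContinuousLinearMap φ), ?_⟩
  intro j k
  rw [InnerProductSpace.toDual_symm_apply]
  have h4 : v j - v k = (v j - v i) - (v k - v i) := by abel
  show φ (v j - v k) = _
  rw [h4, map_sub, h1', h1']
  ring

lemma sum_weight {ι : Type} [Fintype ι] (v : ι → E) (l : ι → ℝ) (hl : ∑ i, l i = 1) :
    ∑ i, l i • (v i - ∑ j, l j • v j) = 0 := by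
  simp only [smul_sub, Finset.sum_sub_distrib, ← Finset.sum_smul, hl, one_smul, sub_self]

lemma sigma_eq {ι : Type} [Fintype ι] (v : ι → E) (l : ι → ℝ) (hl : ∑ i, l i = 1) :
    ∑ i, l i * ‖v i - ∑ j, l j • v j‖ ^ 2 = ∑ i, l i * ‖v i‖ ^ 2 - ‖∑ j, l j • v j‖ ^ 2 := by
  set y := ∑ j, l j • v j with hy
  have h1 : ∀ i, l i * ‖v i - y‖ ^ 2 = l i * ‖v i‖ ^ 2 - 2 * (inner ℝ (l i • v i) (y) : ℝ) + l i * ‖y‖ ^ 2 := by
    intro i
    rw [norm_sub_sq_real, real_inner_smul_left]
    ring
  rw [Finset.sum_congr rfl (fun i _ => h1 i), Finset.sum_add_distrib, Finset.sum_sub_distrib,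
    ← Finset.mul_sum, ← sum_inner, ← hy, ← Finset.sum_mul, hl, real_inner_self_eq_norm_sq]
  ring

theorem facet {ι : Type} [Fintype ι] [DecidableEq ι] (hn : 2 ≤ Fintype.card ι) (v : ι → E)
    (hv : AffineIndependent ℝ v) (p : E) (s : ℝ)
    (H : ∀ μ : ι → ℝ, (∀ i, 0 ≤ μ i) → ∑ i, μ i = 1 → (∃ j, μ j = 0) →
      s ≤ ‖∑ i, μ i • v i - p‖ ^ 2)
    (l : ι → ℝ) (hl0 : ∀ i, 0 ≤ l i) (hl1 : ∑ i, l i = 1) :
    s ≤ ‖∑ i, l i • v i - p‖ ^ 2 +
      (∑ i, l i * ‖v i - ∑ j, l j • v j‖ ^ 2) / ((Fintype.card ι : ℝ) - 1) ^ 2 := by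
  by_contra hcon
  push Not at hcon
  have hn1 : (0 : ℝ) < (Fintype.card ι : ℝ) - 1 := by
    have : (2 : ℝ) ≤ (Fintype.card ι : ℝ) := by exact_mod_cast hn
    linarith
  set N : ℝ := (Fintype.card ι : ℝ) - 1 with hN
  set y := ∑ i, l i • v i with hy
  set σ := ∑ i, l i * ‖v i - y‖ ^ 2 with hσ
  have hσ0 : 0 ≤ σ := Finset.sum_nonneg (fun i _ => mul_nonneg (hl0 i) (sq_nonneg _))
  have hσN : 0 ≤ σ / N ^ 2 := by positivity
  have hpos : ∀ i, 0 < l i := by
    intro i
    rcases (hl0 i).lt_or_eq with h | h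
    · exact h
    · have := H l hl0 hl1 ⟨i, h.symm⟩
      linarith
  set u : ι → E := fun i => v i - y with hu
  have hlu : ∑ i, l i • u i = 0 := sum_weight v l hl1
  let W : Submodule ℝ E := Submodule.span ℝ (Set.range u)
  have huW : ∀ i, u i ∈ W := fun i => Submodule.subset_span ⟨i, rfl⟩
  choose r hr using exists_dual v hv
  have hru : ∀ i j, (inner ℝ (r i) (u j) : ℝ) = (if i = j then (1 : ℝ) else 0) - l i := by
    intro i j
    have h1 : u j = ∑ k, l k • (v j - v k) := by
      simp only [smul_sub, Finset.sum_sub_distrib, ← Finset.sum_smul, hl1, one_smul]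
      rfl
    rw [h1, inner_sum]
    have h2 : ∀ k, (inner ℝ (r i) (l k • (v j - v k)) : ℝ) = l k * (if i = j then (1 : ℝ) else 0) -
        (if i = k then l k else 0) := by
      intro k
      rw [real_inner_smul_right, hr]
      split_ifs <;> ring
    rw [Finset.sum_congr rfl (fun k _ => h2 k), Finset.sum_sub_distrib, ← Finset.sum_mul, hl1,
      Finset.sum_ite_eq, one_mul]
    simp
  let g : ι → E := fun i => W.starProjection (r i)
  have hgW : ∀ i, g i ∈ W := fun i => Submodule.starProjection_apply_mem _ _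
  have hinner : ∀ (x : E) (z : E), z ∈ W → (inner ℝ (W.starProjection x) (z) : ℝ) = (inner ℝ (x) (z) : ℝ) := by
    intro x z hz
    have h := Submodule.starProjection_inner_eq_zero x z hz
    rw [inner_sub_left] at h
    linarith
  have hgu : ∀ i j, (inner ℝ (g i) (u j) : ℝ) = (if i = j then (1 : ℝ) else 0) - l i := by
    intro i j
    rw [← hru i j]
    exact hinner _ _ (huW j)
  have hzero : ∀ x ∈ W, (∀ j, (inner ℝ (x) (u j) : ℝ) = 0) → x = 0 := by
    intro x hx h
    have h2 : ∀ z ∈ W, (inner ℝ (x) (z) : ℝ) = 0 := by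
      intro z hz
      refine Submodule.span_induction ?_ ?_ ?_ ?_ hz
      · rintro _ ⟨j, rfl⟩; exact h j
      · exact inner_zero_right _
      · intro a b _ _ ha hb; rw [inner_add_right, ha, hb, add_zero]
      · intro a b _ hb; rw [real_inner_smul_right, hb, mul_zero]
    exact inner_self_eq_zero.1 (h2 x hx)
  have hsumg : ∑ i, g i = 0 := by
    apply hzero _ (Submodule.sum_mem _ (fun i _ => hgW i))
    intro j
    rw [sum_inner, Finset.sum_congr rfl (fun i _ => hgu i j), Finset.sum_sub_distrib, hl1]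
    simp
  have hrep : ∀ q ∈ W, ∑ j, (inner ℝ (g j) (q) : ℝ) • u j = q := by
    intro q hq
    refine Submodule.span_induction ?_ ?_ ?_ ?_ hq
    · rintro _ ⟨k, rfl⟩
      simp only [hgu, sub_smul, Finset.sum_sub_distrib, hlu, sub_zero]
      simp
    · simp
    · intro a b _ _ ha hb
      simp only [inner_add_right, add_smul, Finset.sum_add_distrib, ha, hb]
    · intro a b _ hb
      simp only [real_inner_smul_right, mul_smul, ← Finset.smul_sum, hb]
  -- decomposition of p - y
  set w := p - y with hw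
  set w0 : E := W.starProjection w with hw0
  have hw0W : w0 ∈ W := Submodule.starProjection_apply_mem _ _
  have hpyth : ∀ q ∈ W, ‖q - w‖ ^ 2 = ‖q - w0‖ ^ 2 + ‖w - w0‖ ^ 2 := by
    intro q hq
    have h1 : q - w = (q - w0) - (w - w0) := by abel
    have h2 : (inner ℝ (q - w0) (w - w0) : ℝ) = 0 := by
      rw [inner_sub_right, real_inner_comm]
      have h3 := hinner w (q - w0) (W.sub_mem hq hw0W)
      have h4 : (inner ℝ (q - w0) (w0) : ℝ) = (inner ℝ (w0) (q - w0) : ℝ) := real_inner_comm _ _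
      rw [h4]
      linarith
    rw [h1, norm_sub_sq_real, h2]
    ring
  set R2 := s - ‖w - w0‖ ^ 2 with hR2
  have hyw : ‖y - p‖ ^ 2 = ‖w0‖ ^ 2 + ‖w - w0‖ ^ 2 := by
    have h1 := hpyth 0 W.zero_mem
    have h2 : y - p = 0 - w := by rw [hw]; abel
    rw [h2, h1]
    simp
  have hR2' : ‖w0‖ ^ 2 + σ / N ^ 2 < R2 := by
    rw [hyw] at hcon
    linarith
  set R := Real.sqrt R2 with hR
  have hR2pos : 0 < R2 := by
    have := sq_nonneg ‖w0‖
    linarith
  have hRpos : 0 < R := Real.sqrt_pos.2 hR2pos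
  have hRsq : R ^ 2 = R2 := Real.sq_sqrt hR2pos.le
  have hw0R : ‖w0‖ < R := by
    apply lt_of_pow_lt_pow_left₀ 2 hRpos.le
    rw [hRsq]
    linarith
  have key : ∀ i, R * ‖g i‖ ≤ l i + (inner ℝ (g i) (w0) : ℝ) := by
    intro i
    by_contra hc
    push Not at hc
    have hgi : 0 < ‖g i‖ := by
      rcases (norm_nonneg (g i)).lt_or_eq with h | h
      · exact h
      · exfalso
        have h0 : g i = 0 := norm_eq_zero.1 h.symm
        rw [h0] at hc
        simp only [norm_zero, mul_zero, inner_zero_left, add_zero] at hc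
        exact absurd hc (not_lt.2 (hl0 i))
    set A := (l i + (inner ℝ (g i) (w0) : ℝ)) / ‖g i‖ with hA
    have hAR : A < R := by
      rw [hA, div_lt_iff₀ hgi]
      exact hc
    set t := max 0 ((A + R) / 2) with ht
    have ht0 : 0 ≤ t := le_max_left _ _
    have htR : t < R := max_lt hRpos (by linarith)
    have hAt : A < t := by
      rcases lt_or_ge A 0 with h | h
      · exact lt_of_lt_of_le h ht0
      · exact lt_of_lt_of_le (by linarith) (le_max_right _ _)
    set q := w0 - (t / ‖g i‖) • g i with hq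
    have hqW : q ∈ W := W.sub_mem hw0W (W.smul_mem _ (hgW i))
    have hqw : ‖q - w0‖ = t := by
      have : q - w0 = -((t / ‖g i‖) • g i) := by rw [hq]; abel
      rw [this, norm_neg, norm_smul, Real.norm_of_nonneg (by positivity)]
      field_simp
    have hgq : l i + (inner ℝ (g i) (q) : ℝ) < 0 := by
      rw [hq, inner_sub_right, real_inner_smul_right, real_inner_self_eq_norm_sq]
      have h1 : t / ‖g i‖ * ‖g i‖ ^ 2 = t * ‖g i‖ := by field_simp
      rw [h1]
      have h2 : A * ‖g i‖ = l i + (inner ℝ (g i) (w0) : ℝ) := by rw [hA]; field_simp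
      have h3 : A * ‖g i‖ < t * ‖g i‖ := mul_lt_mul_of_pos_right hAt hgi
      linarith
    -- first exit
    set J := (Finset.univ : Finset ι).filter (fun j => (inner ℝ (g j) (q) : ℝ) < 0) with hJ
    have hiJ : i ∈ J := by
      rw [hJ, Finset.mem_filter]
      refine ⟨Finset.mem_univ _, ?_⟩
      have := hpos i
      linarith
    obtain ⟨j0, hj0, hmin⟩ := Finset.exists_min_image J (fun j => l j / (-(inner ℝ (g j) (q) : ℝ))) ⟨i, hiJ⟩
    set T := l j0 / (-(inner ℝ (g j0) (q) : ℝ)) with hT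
    have hj0' : (inner ℝ (g j0) (q) : ℝ) < 0 := (Finset.mem_filter.1 hj0).2
    have hT0 : 0 ≤ T := div_nonneg (hl0 _) (by linarith)
    have hT1 : T < 1 := by
      have h1 := hmin i hiJ
      have h2 : l i / (-(inner ℝ (g i) (q) : ℝ)) < 1 := by
        have h3 := hpos i
        rw [div_lt_one (by linarith)]
        linarith
      exact lt_of_le_of_lt h1 h2
    have hμ := H (fun j => l j + T * (inner ℝ (g j) (q) : ℝ)) (by
      intro j
      show 0 ≤ l j + T * (inner ℝ (g j) (q) : ℝ)
      by_cases hj : (inner ℝ (g j) (q) : ℝ) < 0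
      · have h1 := hmin j (Finset.mem_filter.2 ⟨Finset.mem_univ _, hj⟩)
        have h2 : T * (-(inner ℝ (g j) (q) : ℝ)) ≤ l j := by
          have h3 : (l j / (-(inner ℝ (g j) (q) : ℝ))) * (-(inner ℝ (g j) (q) : ℝ)) = l j := by
            have : -(inner ℝ (g j) (q) : ℝ) ≠ 0 := by linarith
            exact div_mul_cancel₀ _ this
          calc T * (-(inner ℝ (g j) (q) : ℝ)) ≤ (l j / (-(inner ℝ (g j) (q) : ℝ))) * (-(inner ℝ (g j) (q) : ℝ)) :=
                mul_le_mul_of_nonneg_right h1 (by linarith)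
            _ = l j := h3
        linarith
      · push Not at hj
        have := mul_nonneg hT0 hj
        have := hl0 j
        linarith) (by
      rw [Finset.sum_add_distrib, hl1, ← Finset.mul_sum, ← sum_inner, hsumg, inner_zero_left,
        mul_zero, add_zero]) ⟨j0, by
      show l j0 + T * (inner ℝ (g j0) (q) : ℝ) = 0
      have h1 : T * (-(inner ℝ (g j0) (q) : ℝ)) = l j0 := by
        rw [hT]
        exact div_mul_cancel₀ _ (by linarith)
      linarith⟩
    have hz : ∑ j, (l j + T * (inner ℝ (g j) (q) : ℝ)) • v j = y + T • q := by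
      have h1 : ∑ j, (T * (inner ℝ (g j) (q) : ℝ)) • v j = T • q := by
        have h2 := hrep q hqW
        have h3 : ∑ j, (inner ℝ (g j) (q) : ℝ) • v j = q := by
          have h4 : ∀ j, (inner ℝ (g j) (q) : ℝ) • v j = (inner ℝ (g j) (q) : ℝ) • u j + (inner ℝ (g j) (q) : ℝ) • y := by
            intro j
            rw [← smul_add]
            congr 1
            simp [hu]
          rw [Finset.sum_congr rfl (fun j _ => h4 j), Finset.sum_add_distrib, h2,
            ← Finset.sum_smul, ← sum_inner, hsumg, inner_zero_left, zero_smul, add_zero]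
        simp only [mul_smul, ← Finset.smul_sum, h3]
      simp only [add_smul, Finset.sum_add_distrib, h1]
      rfl
    simp only [hz] at hμ
    have h5 : y + T • q - p = T • q - w := by rw [hw]; abel
    rw [h5, hpyth _ (W.smul_mem _ hqW)] at hμ
    have h6 : R ^ 2 ≤ ‖T • q - w0‖ ^ 2 := by rw [hRsq]; linarith
    have h7 : R ≤ ‖T • q - w0‖ := le_of_sq_le_sq h6 (norm_nonneg _)
    have h8 : T • q - w0 = T • (q - w0) - (1 - T) • w0 := by
      simp only [smul_sub, sub_smul, one_smul]
      abel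
    have h9 : ‖T • q - w0‖ ≤ T * t + (1 - T) * ‖w0‖ := by
      rw [h8]
      refine (norm_sub_le _ _).trans ?_
      rw [norm_smul, norm_smul, hqw, Real.norm_of_nonneg hT0, Real.norm_of_nonneg (by linarith)]
    have h10 : T * t + (1 - T) * ‖w0‖ < R := by
      have a1 : T * t ≤ T * R := mul_le_mul_of_nonneg_left htR.le hT0
      have a2 : (1 - T) * ‖w0‖ < (1 - T) * R := mul_lt_mul_of_pos_left hw0R (by linarith)
      linarith
    linarith
  -- final inequality
  have hterm : ∀ i, ‖g i‖ ^ 2 / l i * (R2 - ‖w0‖ ^ 2) ≤ l i + 2 * (inner ℝ (g i) (w0) : ℝ) := by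
    intro i
    have h1 := key i
    have h2 : (R * ‖g i‖) ^ 2 ≤ (l i + (inner ℝ (g i) (w0) : ℝ)) ^ 2 :=
      pow_le_pow_left₀ (by positivity) h1 2
    have h3 : (inner ℝ (g i) (w0) : ℝ) ^ 2 ≤ ‖g i‖ ^ 2 * ‖w0‖ ^ 2 := by
      have := abs_real_inner_le_norm (g i) w0
      rw [← mul_pow, ← sq_abs ((inner ℝ (g i) (w0) : ℝ))]
      exact pow_le_pow_left₀ (abs_nonneg _) this 2
    have h4 : ‖g i‖ ^ 2 * (R2 - ‖w0‖ ^ 2) ≤ (l i + 2 * (inner ℝ (g i) (w0) : ℝ)) * l i := by
      rw [mul_pow, hRsq] at h2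
      nlinarith
    rw [div_mul_eq_mul_div, div_le_iff₀ (hpos i)]
    exact h4
  have hsum : (∑ i, ‖g i‖ ^ 2 / l i) * (R2 - ‖w0‖ ^ 2) ≤ 1 := by
    rw [Finset.sum_mul]
    refine (Finset.sum_le_sum (fun i _ => hterm i)).trans ?_
    rw [Finset.sum_add_distrib, hl1, ← Finset.mul_sum, ← sum_inner, hsumg, inner_zero_left]
    simp
  have htrace : N ≤ ∑ i, ‖u i‖ * ‖g i‖ := by
    have h1 : ∑ i, (inner ℝ (g i) (u i) : ℝ) = N := by
      simp only [hgu, Finset.sum_sub_distrib, hl1, if_true]
      simp [hN]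
    rw [← h1]
    refine Finset.sum_le_sum (fun i _ => ?_)
    rw [mul_comm]
    exact real_inner_le_norm _ _
  have hCS : (∑ i, ‖u i‖ * ‖g i‖) ^ 2 ≤ σ * (∑ i, ‖g i‖ ^ 2 / l i) := by
    rw [hσ]
    refine Finset.sum_sq_le_sum_mul_sum_of_sq_eq_mul _ ?_ ?_ ?_
    · intro i _; exact mul_nonneg (hl0 i) (sq_nonneg _)
    · intro i _; exact div_nonneg (sq_nonneg _) (hl0 i)
    · intro i _
      have := (hpos i).ne'
      simp only [hu]
      field_simp
  have hN2 : N ^ 2 ≤ σ * (∑ i, ‖g i‖ ^ 2 / l i) :=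
    (pow_le_pow_left₀ hn1.le htrace 2).trans hCS
  have hD : 0 < R2 - ‖w0‖ ^ 2 := by linarith
  have hfin : N ^ 2 * (R2 - ‖w0‖ ^ 2) ≤ σ := by
    calc N ^ 2 * (R2 - ‖w0‖ ^ 2) ≤ σ * (∑ i, ‖g i‖ ^ 2 / l i) * (R2 - ‖w0‖ ^ 2) :=
          mul_le_mul_of_nonneg_right hN2 hD.le
      _ = σ * ((∑ i, ‖g i‖ ^ 2 / l i) * (R2 - ‖w0‖ ^ 2)) := by ring
      _ ≤ σ * 1 := mul_le_mul_of_nonneg_left hsum hσ0
      _ = σ := mul_one _
  have hfin2 : R2 - ‖w0‖ ^ 2 ≤ σ / N ^ 2 := by
    rw [le_div_iff₀ (by positivity)]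
    linarith
  linarith

/-- The constant. -/
noncomputable def cc (n m : ℕ) : ℝ := ((n : ℝ) - m) / (((n : ℝ) - 1) * m)

theorem skel (m : ℕ) (hm : 2 ≤ m) : ∀ (n : ℕ) (ι : Type) [Fintype ι] [DecidableEq ι],
    Fintype.card ι = n → m ≤ n → ∀ (v : ι → E), AffineIndependent ℝ v → ∀ (p : E) (s : ℝ),
    (∀ μ : ι → ℝ, (∀ i, 0 ≤ μ i) → ∑ i, μ i = 1 →
      (Finset.univ.filter (fun i => μ i ≠ 0)).card ≤ m → s ≤ ‖∑ i, μ i • v i - p‖ ^ 2) →
    ∀ l : ι → ℝ, (∀ i, 0 ≤ l i) → ∑ i, l i = 1 →
    s ≤ ‖∑ i, l i • v i - p‖ ^ 2 + cc n m * (∑ i, l i * ‖v i - ∑ j, l j • v j‖ ^ 2) := by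
  intro n
  induction n with
  | zero => intro ι _ _ _ h; omega
  | succ n ih =>
    intro ι _ _ hcard hmn v hv p s H l hl0 hl1
    rcases Nat.lt_or_ge n m with hnm | hnm
    · have hmeq : m = n + 1 := by omega
      have h1 := H l hl0 hl1 (by
        rw [hmeq, ← hcard]
        exact (Finset.card_filter_le _ _).trans (by simp))
      have h2 : cc (n + 1) m = 0 := by
        rw [cc, hmeq]
        simp
      rw [h2]
      linarith
    · -- the inductive step
      have hn2 : 2 ≤ n := hm.trans hnm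
      have hnR : (2 : ℝ) ≤ n := by exact_mod_cast hn2
      have hmR : (2 : ℝ) ≤ m := by exact_mod_cast hm
      have hmnR : (m : ℝ) ≤ n := by exact_mod_cast hnm
      have hden : (0 : ℝ) < ((n : ℝ) - 1) * m := mul_pos (by linarith) (by linarith)
      have hc0 : 0 ≤ cc n m := div_nonneg (by linarith) hden.le
      have hc1 : cc n m < 1 := by
        rw [cc, div_lt_one hden]
        nlinarith
      set c := cc n m with hc
      choose r hr using exists_dual v hv
      set o : E := (2⁻¹ : ℝ) • ∑ i, (‖v i‖ ^ 2) • r i with ho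
      have hoo : ∀ j k, 2 * (inner ℝ (o) (v j - v k) : ℝ) = ‖v j‖ ^ 2 - ‖v k‖ ^ 2 := by
        intro j k
        rw [ho, real_inner_smul_left, sum_inner]
        have h1 : ∀ i, (inner ℝ ((‖v i‖ ^ 2) • r i) (v j - v k) : ℝ) = (if i = j then ‖v i‖ ^ 2 else 0) -
            (if i = k then ‖v i‖ ^ 2 else 0) := by
          intro i
          rw [real_inner_smul_left, hr]
          split_ifs <;> ring
        rw [Finset.sum_congr rfl (fun i _ => h1 i), Finset.sum_sub_distrib]
        simp
      have hne : Nonempty ι := Fintype.card_pos_iff.1 (by omega)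
      obtain ⟨i0⟩ := hne
      set κ := ‖v i0‖ ^ 2 - 2 * (inner ℝ (o) (v i0) : ℝ) with hκ
      have hvi : ∀ i, ‖v i‖ ^ 2 = 2 * (inner ℝ (o) (v i) : ℝ) + κ := by
        intro i
        have := hoo i i0
        rw [inner_sub_right] at this
        rw [hκ]
        linarith
      have hσ : ∀ μ : ι → ℝ, ∑ i, μ i = 1 → ∑ i, μ i * ‖v i - ∑ j, μ j • v j‖ ^ 2 =
          2 * (inner ℝ (o) (∑ i, μ i • v i) : ℝ) + κ - ‖∑ i, μ i • v i‖ ^ 2 := by
        intro μ hμ
        rw [sigma_eq v μ hμ]
        congr 1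
        simp only [hvi, mul_add, Finset.sum_add_distrib, ← Finset.sum_mul, hμ, one_mul, inner_sum,
          real_inner_smul_right, Finset.mul_sum]
        congr 1
        refine Finset.sum_congr rfl (fun i _ => by ring)
      set p' : E := (1 - c)⁻¹ • (p - c • o) with hp'
      set K := ‖p‖ ^ 2 + c * κ - (1 - c) * ‖p'‖ ^ 2 with hK
      have h1c : 0 < 1 - c := by linarith
      have hquad : ∀ z : E, ‖z - p‖ ^ 2 + c * (2 * (inner ℝ (o) (z) : ℝ) + κ - ‖z‖ ^ 2) =
          (1 - c) * ‖z - p'‖ ^ 2 + K := by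
        intro z
        have h2 : (1 - c) * (inner ℝ (z) (p') : ℝ) = (inner ℝ (z) (p) : ℝ) - c * (inner ℝ (o) (z) : ℝ) := by
          rw [hp', real_inner_smul_right, inner_sub_right, real_inner_smul_right,
            real_inner_comm z o]
          field_simp
        rw [norm_sub_sq_real, norm_sub_sq_real, hK]
        linear_combination 2 * h2
      -- boundary points
      have hbd : ∀ μ : ι → ℝ, (∀ i, 0 ≤ μ i) → ∑ i, μ i = 1 → (∃ j, μ j = 0) →
          (s - K) / (1 - c) ≤ ‖∑ i, μ i • v i - p'‖ ^ 2 := by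
        rintro μ hμ0 hμ1 ⟨j, hj⟩
        have hcardj : Fintype.card {i // i ≠ j} = n := by
          have : Fintype.card {i // i ≠ j} = Fintype.card ι - 1 := by
            simp [Fintype.card_subtype_compl]
          rw [this, hcard]; rfl
        have hsumj : ∀ f : ι → E, ∑ i, f i = f j + ∑ i : {i // i ≠ j}, f i := fun f =>
          Fintype.sum_eq_add_sum_subtype_ne f j
        have hsumj' : ∀ f : ι → ℝ, ∑ i, f i = f j + ∑ i : {i // i ≠ j}, f i := fun f =>
          Fintype.sum_eq_add_sum_subtype_ne f j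
        have hz : ∑ i : {i // i ≠ j}, μ i • v i = ∑ i, μ i • v i := by
          rw [hsumj (fun i => μ i • v i), hj, zero_smul, zero_add]
        have hz1 : ∑ i : {i // i ≠ j}, μ i = 1 := by
          rw [← hμ1, hsumj' μ, hj, zero_add]
        have h1 := ih {i // i ≠ j} hcardj hnm (fun i => v i)
          (hv.comp_embedding (Function.Embedding.subtype _)) p s (by
            intro ν hν0 hν1 hνc
            have e1 : ∀ i : {i // i ≠ j}, (fun i : ι => if h : i ≠ j then ν ⟨i, h⟩ else 0) i.1 =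
                ν i := by
              intro i
              simp only [dif_pos i.2]
            have h2 := H (fun i => if h : i ≠ j then ν ⟨i, h⟩ else 0) (by
              intro i
              show 0 ≤ if h : i ≠ j then ν ⟨i, h⟩ else 0
              split_ifs with h
              · exact hν0 _
              · exact le_rfl) (by
              rw [hsumj' (fun i => if h : i ≠ j then ν ⟨i, h⟩ else 0),
                Finset.sum_congr rfl (fun i _ => e1 i), hν1]
              simp) (by
              refine le_trans ?_ hνc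
              rw [← Finset.card_map (Function.Embedding.subtype (fun i => i ≠ j))]
              apply Finset.card_le_card
              intro i hi
              rw [Finset.mem_filter] at hi
              have hi2 : (if h : i ≠ j then ν ⟨i, h⟩ else 0) ≠ 0 := hi.2
              have hij : i ≠ j := by
                intro h
                rw [dif_neg (by simpa using h)] at hi2
                exact hi2 rfl
              rw [dif_pos hij] at hi2
              rw [Finset.mem_map]
              exact ⟨⟨i, hij⟩, Finset.mem_filter.2 ⟨Finset.mem_univ _, hi2⟩, rfl⟩)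
            have e2 : ∑ i, (if h : i ≠ j then ν ⟨i, h⟩ else 0) • v i =
                ∑ i : {i // i ≠ j}, ν i • v i := by
              rw [hsumj (fun i => (if h : i ≠ j then ν ⟨i, h⟩ else 0) • v i)]
              rw [dif_neg (by simp), zero_smul, zero_add]
              refine Finset.sum_congr rfl (fun i _ => ?_)
              rw [dif_pos i.2]
            rw [e2] at h2
            exact h2)
          (fun i => μ i) (fun i => hμ0 _) hz1
        have h3 : ∑ i : {i // i ≠ j}, μ i * ‖v i - ∑ k : {i // i ≠ j}, μ k • v k‖ ^ 2 =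
            2 * (inner ℝ (o) (∑ i, μ i • v i) : ℝ) + κ - ‖∑ i, μ i • v i‖ ^ 2 := by
          rw [hz, ← hσ μ hμ1, hsumj' (fun i => μ i * ‖v i - ∑ j, μ j • v j‖ ^ 2), hj, zero_mul,
            zero_add]
        rw [h3, hz, hquad] at h1
        rw [div_le_iff₀ h1c]
        linarith
      have hfin := facet (by omega) v hv p' ((s - K) / (1 - c)) hbd l hl0 hl1
      rw [div_le_iff₀ h1c] at hfin
      have hcn : cc (n + 1) m = c + (1 - c) / (((n + 1 : ℕ) : ℝ) - 1) ^ 2 := by
        rw [hc, cc, cc]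
        push_cast
        have e1 : (n : ℝ) ≠ 0 := by linarith
        have e2 : (m : ℝ) ≠ 0 := by linarith
        have e3 : (n : ℝ) - 1 ≠ 0 := by linarith
        have e4 : (n : ℝ) + 1 - 1 = n := by ring
        rw [e4]
        field_simp
        ring
      rw [hcard] at hfin
      have hq := hquad (∑ i, l i • v i)
      rw [← hσ l hl1] at hq
      rw [hcn]
      set σ := ∑ i, l i * ‖v i - ∑ j, l j • v j‖ ^ 2 with hσdef
      have e5 : (‖∑ i, l i • v i - p'‖ ^ 2 + σ / (((n + 1 : ℕ) : ℝ) - 1) ^ 2) * (1 - c) =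
          (1 - c) * ‖∑ i, l i • v i - p'‖ ^ 2 + (1 - c) / (((n + 1 : ℕ) : ℝ) - 1) ^ 2 * σ := by
        ring
      rw [e5] at hfin
      linarith

end Pool.Agent.Skel
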